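import Mathlib
import Pool.Agent.H21.SqF

namespace Pool.Agent.Results.MP_f02a84_al.NotLinearNotRF

open Pool.Agent.H21 Pool.Agent.H21.Sq Pool.Agent.H21.ZZ
open scoped commutatorElement

def x0 : FreeGroup Bool := FreeGroup.of false
def x1 : FreeGroup Bool := FreeGroup.of true

def Thompson : Type :=
  PresentedGroup {⁅x0 * x1⁻¹, x0⁻¹ * x1 * x0⁆, ⁅x0 * x1⁻¹, x0⁻¹ * (x0⁻¹ * x1 * x0) * x0⁆}

instance : Group Thompson := inferInstanceAs (Group (PresentedGroup _))

def a : Thompson := PresentedGroup.of false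
def b : Thompson := PresentedGroup.of true

lemma rep {H : Type} [Group H] (u v : H) (h1 : Commute (u * v⁻¹) (u⁻¹ * v * u))
    (h2 : Commute (u * v⁻¹) (u⁻¹ * (u⁻¹ * v * u) * u)) : ∃ f : Thompson →* H, f a = u ∧ f b = v :=
  ⟨PresentedGroup.toGroup (f := fun c => if c then v else u) (by
    rintro r (rfl | rfl) <;> simpa [x0, x1, map_commutatorElement, commutatorElement_eq_one_iff_commute]),
    PresentedGroup.toGroup.of _, PresentedGroup.toGroup.of _⟩

def g : Equiv.Perm ℚ where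
  toFun s := if s ≤ 0 then s else if s ≤ 2 then s / 2 else s - 1
  invFun s := if s ≤ 0 then s else if s ≤ 1 then s * 2 else s + 1
  left_inv s := by grind
  right_inv s := by grind

lemma nonab : a⁻¹ * b * a ≠ a⁻¹ * (a⁻¹ * b * a) * a := fun h => by
  have : ∀ s : ℚ, 1 ≤ s → (Equiv.addRight (-1) * g⁻¹ : Equiv.Perm ℚ) s = s := fun s h => by
    change (if s ≤ 0 then s else if s ≤ 1 then s * 2 else s + 1) + -1 = s
    grind
  obtain ⟨f, h1, h2⟩ := rep (Equiv.addRight (-1)) g (Equiv.Perm.Disjoint.commute fun s =>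
    (le_total 1 s).imp (this s) fun h => by simp [g]; grind) (Equiv.Perm.Disjoint.commute fun s =>
    (le_total 1 s).imp (this s) fun h => by simp [g]; grind)
  have := congrArg (f · 2) h
  norm_num [h1, h2, g] at this

lemma noF (f : Thompson →* G) : ¬ Function.Injective f := fun hf => by
  have c2 : Commute (a * b⁻¹) (a⁻¹ * b * a) :=
    commutatorElement_eq_one_iff_commute.1 (PresentedGroup.one_of_mem (.inl rfl))
  have c3 : Commute (a * b⁻¹) (a⁻¹ * (a⁻¹ * b * a) * a) :=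
    commutatorElement_eq_one_iff_commute.1 (PresentedGroup.one_of_mem (.inr rfl))
  have n := nonab
  obtain ⟨χ, h1, h2⟩ := rep (Multiplicative.ofAdd (1 : ℤ)) 1 (.all _ _) (.all _ _)
  obtain ⟨ξ, h3, h4⟩ := rep 1 (Multiplicative.ofAdd (1 : ℤ)) (.all _ _) (.all _ _)
  obtain ⟨u, hu⟩ : ∃ u, u = a⁻¹ * b * a := ⟨_, rfl⟩
  obtain ⟨v, hv⟩ : ∃ v, v = a⁻¹ * u * a := ⟨_, rfl⟩
  obtain ⟨w, hw⟩ : ∃ w, w = a⁻¹ * v * a := ⟨_, rfl⟩
  rw [← hu] at c2 c3 n
  rw [← hv] at c3 n
  have k : ∀ {p}, Commute (a * b⁻¹) p → a⁻¹ * p * a = b⁻¹ * p * b := fun {p} h => by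
    rw [mul_assoc, inv_mul_eq_iff_eq_mul, ← mul_assoc, ← mul_assoc, h.eq]; group
  have e1 : w = u⁻¹ * v * u := by rw [hw]; nth_rw 1 [hv, k c2]; rw [hv]; nth_rw 2 4 [hu]; group
  have e2 : Commute (b * u⁻¹) v := by
    rw [Commute, SemiconjBy, mul_assoc, ← mul_inv_cancel_right (u⁻¹ * v) u, ← e1, hw, k c3]; group
  have e3 : Commute (u * v⁻¹) w := by
    convert e2.map (MulAut.conj a⁻¹) using 1 <;> simp [hu, hv, hw, mul_assoc]
  obtain ⟨i, j, l, h, e⟩ := three ((c2.mul_right c3.inv_right).map f)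
    ((e1 ▸ (c2.inv_right.mul_right c3).mul_right c2 : Commute _ w).map f) (e3.map f)
  have e' := e
  simp only [← map_zpow, ← map_mul, map_eq_one_iff f hf] at e'
  obtain rfl : i = 0 := by simpa [hu, hv, hw, h1, h2] using congrArg (fun p => (χ p).toAdd) e'
  obtain rfl : l = 0 := by simpa [hu, hv, hw, h3, h4] using congrArg (fun p => (ξ p).toAdd) e'
  exact n (mul_inv_eq_one.1 ((map_eq_one_iff f hf).1 (tf (by simpa using e) (by simpa using h))))

theorem result : ∃ (R : Set (List (Fin 3) × List (Fin 3))) (w : List (Fin 3)),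
    R.Finite ∧ Valid R w ∧ (∀ f : Thompson →* D R w, ¬ Function.Injective f) ∧
    (∀ (K : Type) [Field K] (n : ℕ) (f : D R w →* GL (Fin n) K), ¬ Function.Injective f) ∧
    ¬ Group.ResiduallyFinite (D R w) := by
  obtain ⟨f, T, X, Z, hf, -, hX, hn⟩ := main
  refine ⟨R0, o 0, by simp [R0], valid, fun g hg => noF (f.comp g) (hf.comp hg),
    fun K _ n g hg => hn (.of_map hg (by simpa using kill_lin (K := K) (kill_map hX g))), fun h => ?_⟩
  obtain ⟨N, hN⟩ := Group.exists_finiteIndexNormalSubgroup_notMem _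
    (mt commutatorElement_eq_one_iff_commute.1 hn)
  refine hN ((QuotientGroup.eq_one_iff (N := N.toSubgroup) _).1 ?_)
  rw [← QuotientGroup.mk'_apply, map_commutatorElement, commutatorElement_eq_one_iff_commute]
  simpa using kill_ord (kill_map hX (QuotientGroup.mk' N.toSubgroup)) (isOfFinOrder_of_finite _)

end Pool.Agent.Results.MP_f02a84_al.NotLinearNotRF
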